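import Mathlib
import Pool.Agent.W307.LS.Stm
import Pool.Agent.W782.LS.RNK

/-!
# Finite generation and rank under the 2-isogeny over a field `L`
-/

set_option autoImplicit false

namespace Pool.Agent.W583.LK

open WeierstrassCurve Pool.Agent.W262.SH Pool.Agent.W307.LS

theorem rnk_gen (hI : Pool.Agent.W307.LS.ISO) (L : Type) [Field L] [DecidableEq L] [Algebra ℚ L]
    (a b : ℤ) (ha : a ≠ 0) (hb : b ≠ 0) (hab : a ≠ b)
    (hE : AddGroup.FG ((E (4 * a) (4 * b)).baseChange L).toAffine.Point) :
    AddGroup.FG ((F4 a b).baseChange L).toAffine.Point ∧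
      Module.finrank ℤ ((F4 a b).baseChange L).toAffine.Point ≤
        Module.finrank ℤ ((E (4 * a) (4 * b)).baseChange L).toAffine.Point := by
  have : CharZero L := algebraRat.charZero L
  have haQ : (a : ℚ) ≠ 0 := by exact_mod_cast ha
  have hbQ : (b : ℚ) ≠ 0 := by exact_mod_cast hb
  have habQ : (a : ℚ) - b ≠ 0 := sub_ne_zero.mpr (by exact_mod_cast hab)
  have hinj : Function.Injective (algebraMap ℚ L) := (algebraMap ℚ L).injective
  have hne : ∀ q : ℚ, q ≠ 0 → algebraMap ℚ L q ≠ 0 := fun q hq h =>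
    hq (hinj (by rw [h, map_zero]))
  obtain ⟨φ, h1, h2⟩ := hI L ((F4 a b).baseChange L).toAffine
    ((E (4 * a) (4 * b)).baseChange L).toAffine
    (by show algebraMap ℚ L 0 = 0; exact map_zero _)
    (by show algebraMap ℚ L 0 = 0; exact map_zero _)
    (by show algebraMap ℚ L 0 = 0; exact map_zero _)
    (by show algebraMap ℚ L (((a : ℚ) - b) ^ 2) ≠ 0; exact hne _ (by positivity))
    (by show algebraMap ℚ L 0 = 0; exact map_zero _)
    (by show algebraMap ℚ L 0 = 0; exact map_zero _)
    (by show algebraMap ℚ L 0 = 0; exact map_zero _)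
    (by
      show algebraMap ℚ L (-(((4 * a : ℤ) : ℚ) + ((4 * b : ℤ) : ℚ))) =
        -2 * algebraMap ℚ L (2 * ((a : ℚ) + b))
      rw [show (-2 : L) = algebraMap ℚ L (-2) by simp, ← map_mul]
      congr 1
      push_cast; ring)
    (by
      show algebraMap ℚ L (((4 * a : ℤ) : ℚ) * ((4 * b : ℤ) : ℚ)) =
        (algebraMap ℚ L (2 * ((a : ℚ) + b))) ^ 2 - 4 * algebraMap ℚ L (((a : ℚ) - b) ^ 2)
      rw [show (4 : L) = algebraMap ℚ L 4 by simp, ← map_mul, ← map_pow, ← map_sub]
      congr 1
      push_cast; ring)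
    (by
      show algebraMap ℚ L (((4 * a : ℤ) : ℚ) * ((4 * b : ℤ) : ℚ)) ≠ 0
      apply hne
      push_cast
      exact mul_ne_zero (mul_ne_zero (by norm_num) haQ) (mul_ne_zero (by norm_num) hbQ))
  refine Pool.Agent.W782.LS.fg_rank _ _ hE φ ?_
  have hsub : ((φ.ker : AddSubgroup _) : Set ((F4 a b).baseChange L).toAffine.Point) ⊆
      {0} ∪ {P | ∃ h : ((F4 a b).baseChange L).toAffine.Nonsingular 0 0,
        P = Affine.Point.some 0 0 h} := by
    intro P hP
    rcases P with _ | ⟨x, y, h⟩
    · left; rfl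
    · right
      have hx : x = 0 := by
        by_contra hx
        obtain ⟨h', h3⟩ := h1 x y h hx
        have h4 : φ (Affine.Point.some x y h) = 0 := hP
        rw [h3] at h4
        exact Affine.Point.some_ne_zero h' h4
      subst hx
      have hy : y = 0 := by
        have h5 := (Affine.equation_iff (W := ((F4 a b).baseChange L).toAffine)
          (x := 0) (y := y)).mp h.1
        have h6 : y ^ 2 + algebraMap ℚ L 0 * 0 * y + algebraMap ℚ L 0 * y =
          (0 : L) ^ 3 + algebraMap ℚ L (2 * ((a : ℚ) + b)) * 0 ^ 2 +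
          algebraMap ℚ L (((a : ℚ) - b) ^ 2) * 0 + algebraMap ℚ L 0 := h5
        have h7 : y ^ 2 = 0 := by
          rw [map_zero] at h6
          linear_combination h6
        exact pow_eq_zero_iff (two_ne_zero) |>.mp h7
      subst hy
      exact ⟨h, rfl⟩
  refine Set.Finite.subset ?_ hsub
  refine (Set.finite_singleton _).union ?_
  by_cases hns : ((F4 a b).baseChange L).toAffine.Nonsingular 0 0
  · refine (Set.finite_singleton (Affine.Point.some 0 0 hns)).subset ?_
    rintro P ⟨h, rfl⟩
    rfl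
  · refine Set.finite_empty.subset ?_
    rintro P ⟨h, _⟩
    exact hns h

end Pool.Agent.W583.LK
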