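import Pool.Agent.W307.LK.Stm
import Pool.Agent.W583.LK.RNKL0

set_option autoImplicit false

namespace Pool.Agent.W583.LK

open WeierstrassCurve Pool.Agent.W262.SH Pool.Agent.W307.LS

theorem rnkl_of : Pool.Agent.W307.LS.ISO → Pool.Agent.W307.LK.RNKL := by
  classical
  intro hI a b ha hb hab L _ _ hE
  exact @rnk_gen hI L _ (fun a b => Classical.propDecidable (a = b)) _ a b ha hb hab hE

end Pool.Agent.W583.LK
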